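import Pool.Agent.H2.NL.Targets2
import Pool.Agent.H64.CC.Point

/-! Board nil, row FTT (helper79). -/

set_option autoImplicit false

open Matrix Polynomial

namespace Pool.Agent.H79.NIL

open Pool.Agent.H2.NL

theorem pf_FTT : T_FTT := by
  intro K _ _ m x htr hx
  obtain ⟨g, a, hg⟩ := Pool.Agent.H64.CC.tRAT K m x htr
  have h1 : aeval x ((X : ℚ[X]) ^ (a + 1) * (X * g)) = aeval x ((X : ℚ[X]) ^ (a + 1)) := by
    rw [mul_sub, mul_one, sub_eq_zero] at hg
    have h2 : (X : ℚ[X]) ^ (a + 1) * (X * g) = X * (X ^ a * (X * g)) := by ring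
    have h3 : (X : ℚ[X]) ^ (a + 1) = X * X ^ a := by ring
    rw [h2, map_mul, h3, map_mul (aeval x) X (X ^ a)]
    congr 1
    rw [map_mul, map_mul, map_pow, aeval_X]
    exact hg.symm
  have hk : ∀ k : ℕ, aeval x ((X : ℚ[X]) ^ (a + 1) * (X * g) ^ k) =
      aeval x ((X : ℚ[X]) ^ (a + 1)) := by
    intro k
    induction k with
    | zero => rw [pow_zero, mul_one]
    | succ k ih =>
      have h2 : (X : ℚ[X]) ^ (a + 1) * (X * g) ^ (k + 1) =
          (X ^ (a + 1) * (X * g) ^ k) * (X * g) := by ring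
      rw [h2, map_mul, ih, ← map_mul, h1]
  have hu : x * aeval x ((X : ℚ[X]) ^ a * g ^ (a + 1)) = aeval x ((X * g) ^ (a + 1)) := by
    have h2 : ((X : ℚ[X]) * g) ^ (a + 1) = X * (X ^ a * g ^ (a + 1)) := by ring
    rw [h2, map_mul (aeval x) X (X ^ a * g ^ (a + 1)), aeval_X]
  refine ⟨X ^ a * g ^ (a + 1), ?_, ?_⟩
  · rw [hu, ← map_mul]
    have h2 : ((X : ℚ[X]) * g) ^ (a + 1) * (X * g) ^ (a + 1) =
        (X ^ (a + 1) * (X * g) ^ (a + 1)) * g ^ (a + 1) := by ring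
    rw [h2, map_mul, hk, ← map_mul]
    congr 1
    ring
  · rw [hu]
    intro h0
    apply hx (a + 1)
    have h2 := hk (a + 1)
    rw [map_mul, h0, mul_zero, map_pow, aeval_X] at h2
    exact h2.symm

end Pool.Agent.H79.NIL
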