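import Pool.Agent.H2.NL.Basic

/-! Board nil, row PTR (helper79). -/

set_option autoImplicit false

open Matrix

namespace Pool.Agent.H79.NIL

open Pool.Agent.H2.NL

theorem pf_PTR : T_PTR := by
  intro K _ _ I _ _ F A hA t ht
  refine ⟨con F.η 1 t, hA.con 1 1 t ht (by norm_num), fun a b => ?_⟩
  have h := Form.con_append F [a] t [F.st b]
  have h1 : con F.η 1 t [a, F.st b] = ∑ x, F.c x * t [a, x, F.st x, F.st b] := h
  rw [h1, Finset.sum_mul]
  unfold pt2 M4
  rw [Matrix.of_apply]
  refine Finset.sum_congr rfl fun y _ => ?_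
  rw [Matrix.of_apply, ← F.sg_c_st y]
  ring

end Pool.Agent.H79.NIL
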