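import Pool.Agent.H2.NL.Basic

/-! Board nil, row TRF (helper79). -/

set_option autoImplicit false

open Matrix

namespace Pool.Agent.H79.NIL

open Pool.Agent.H2.NL

lemma pf_congr' {K : Type} [Field K] {I J : Type} [Fintype J] (j : Matrix I J K) (w : List I) :
    ∀ (n : ℕ) (t t' : List J → K), (∀ v : List J, v.length = n → t v = t' v) →
      w.length = n → pf j t w = pf j t' w := by
  induction w with
  | nil =>
    intro n t t' h hw
    exact h [] hw
  | cons a w ih =>
    intro n t t' h hw
    show ∑ b, j a b * pf j (fun l => t (b :: l)) w = ∑ b, j a b * pf j (fun l => t' (b :: l)) w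
    refine Finset.sum_congr rfl fun b _ => ?_
    rw [ih w.length (fun l => t (b :: l)) (fun l => t' (b :: l)) (fun v hv => h _ ?_) rfl]
    rw [List.length_cons] at hw ⊢
    omega

lemma pf_ne {K : Type} [Field K] {I J : Type} [Fintype I] (i : Matrix J I K) (o : I → Bool)
    (o' : J → Bool) (hi : ∀ b a, i b a ≠ 0 → o' b = o a) (w : List J) :
    ∀ s : List I → K, pf i s w ≠ 0 →
      ∃ w' : List I, w'.length = w.length ∧ s w' ≠ 0 ∧ odds o w' = odds o' w := by
  induction w with
  | nil =>
    intro s hs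
    exact ⟨[], rfl, hs, rfl⟩
  | cons a w ih =>
    intro s hs
    obtain ⟨b, -, hb⟩ := Finset.exists_ne_zero_of_sum_ne_zero
      (show ∑ b, i a b * pf i (fun l => s (b :: l)) w ≠ 0 from hs)
    obtain ⟨w', h1, h2, h3⟩ := ih (fun l => s (b :: l)) (right_ne_zero_of_mul hb)
    refine ⟨b :: w', by simp [h1], h2, ?_⟩
    have h4 := hi a b (left_ne_zero_of_mul hb)
    unfold odds at h3 ⊢
    rw [List.filter_cons, List.filter_cons, h4]
    split_ifs
    · rw [List.length_cons, List.length_cons, h3]
    · exact h3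

theorem pf_TRF (hPFA : T_PFA) (hPFB : T_PFB) : T_TRF := by
  intro K _ _ I J _ _ _ _ o η ω A o' η' ω' j i hA hj hi hij hη hω
  obtain ⟨a1, a2, a3, a4, -⟩ := hPFA K I J j o o' hj
  obtain ⟨b1, b2, -, -⟩ := hPFB K J I J i j
  refine ⟨?_, ?_, ?_, ?_, ?_, ?_, ?_⟩
  · intro k t t' ht h
    exact hA.congr k (pf j t) (pf j t') ht
      (fun w hw => (pf_congr' j w (2 * k) t' t (fun v hv => h v hv) hw))
  · refine hA.congr 0 (fun _ => 1) (pf j fun _ => 1) hA.one ?_
    intro w hw
    have : w = [] := List.eq_nil_of_length_eq_zero hw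
    rw [this]
    rfl
  · show pf j (two ω') ∈ A 1
    rw [a4]
    exact hω
  · intro k k' t t' ht ht'
    show pf j (tp (2 * k) t t') ∈ A (k + k')
    have h : pf j (tp (2 * k) t t') = tp (2 * k) (pf j t) (pf j t') :=
      funext fun w => a3 (2 * k) t t' w
    rw [h]
    exact hA.tp k k' _ _ ht ht'
  · intro k l t ht hl
    show pf j (sw o' l t) ∈ A k
    rw [a1]
    exact hA.sw k l _ ht hl
  · intro k l t ht hl
    refine hA.congr k (con η l (pf j t)) (pf j (con η' l t)) (hA.con k l _ ht hl) ?_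
    intro w hw
    rw [a2 η l t w (by omega), hη]
  · intro k t w ht hw hne
    have h1 : pf i (pf j t) = t := by rw [b1, hij, b2]
    rw [← h1] at hne
    obtain ⟨w', h2, h3, h4⟩ := pf_ne i o o' hi w (pf j t) hne
    rw [← h4]
    exact hA.even k (pf j t) w' ht (by omega) h3

end Pool.Agent.H79.NIL
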